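import Pool.Agent.Run7.h976.SP.Qc

/-!
Spherical sums of `f ∈ L²(R^n)`: the maximal function on the whole space, in `L² + L^p`, and
almost everywhere convergence, under a condition on the `L² → L^p` constants of the level sets of
the Fourier transform.
-/

set_option autoImplicit false

namespace Pool.Agent.Results.MP_ee701d_an.AdditiveEnergy

open MeasureTheory Filter Topology
open scoped FourierTransform ENNReal

variable {X : Type*} [NormedAddCommGroup X] [InnerProductSpace ℝ X] [FiniteDimensional ℝ X]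
  [MeasurableSpace X] [BorelSpace X]

/-- the space `L²(X)` -/
noncomputable abbrev L2 (X : Type*) [NormedAddCommGroup X] [InnerProductSpace ℝ X] [FiniteDimensional ℝ X]
    [MeasurableSpace X] [BorelSpace X] := Lp ℂ 2 (volume : Measure X)

/-- the Fourier transform on `L²(X)` -/
noncomputable def fourier (f : L2 X) : L2 X := 𝓕 f

/-- the Fourier transform of a square integrable function, as a function -/
noncomputable def hat (f : L2 X) : X → ℂ := fourier f

/-- the spherical sum `S_R f (x)` -/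
noncomputable def S (R : ℝ) (f : L2 X) (x : X) : ℂ :=
  ∫ ξ in Metric.closedBall (0 : X) R,
    Complex.exp (2 * Real.pi * (inner ℝ ξ x : ℝ) * Complex.I) * hat f ξ

/-- the maximal function `S^* f (x)` -/
noncomputable def Smax (f : L2 X) (x : X) : ℝ≥0∞ :=
  ⨆ (R : ℝ) (_ : 0 < R), ‖S R f x‖ₑ

/-- the constant of a set `A` of frequencies: the infimum of the `K` with
`∫ |g|^p ≤ K (∫ |g|²)^(p/2)` for all `g ∈ L²(X)` with Fourier transform zero outside `A` -/
noncomputable def kap (p : ℝ) (A : Set X) : ℝ≥0∞ :=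
  sInf {K : ℝ≥0∞ | ∀ g : L2 X, (∀ᵐ ξ, ξ ∉ A → hat g ξ = 0) →
    ∫⁻ x, ‖g x‖ₑ ^ p ≤ K * (∫⁻ x, ‖g x‖ₑ ^ 2) ^ (p / 2)}

/-- the level set of `|f^|` at the point `ξ`, in the annulus `|ξ|/2 ≤ |η| ≤ 2|ξ|` -/
def level (f : L2 X) (ξ : X) : Set X :=
  {η | ‖ξ‖ / 2 ≤ ‖η‖ ∧ ‖η‖ ≤ 2 * ‖ξ‖ ∧ ‖hat f ξ‖ ≤ ‖hat f η‖}

/-- the weight: the smaller one of `log² (2 + |ξ|)` and `log^(2+ε) (2 + kap p (level f ξ))` -/
noncomputable def weight (p ε : ℝ) (f : L2 X) (ξ : X) : ℝ :=
  min (Real.log (2 + ‖ξ‖) ^ 2) (Real.log (2 + (kap p (level f ξ)).toReal) ^ (2 + ε))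

/-- the integral of `weight * |f^|²` -/
noncomputable def Phi (p ε : ℝ) (f : L2 X) : ℝ≥0∞ :=
  ∫⁻ ξ, ENNReal.ofReal (weight p ε f ξ) * ‖hat f ξ‖ₑ ^ 2

section aux

open Run7.h976.SP Run7.h976.SP.Q

variable {p : ℝ}

theorem hat_meas (f : L2 X) : Measurable (hat f) :=
  (Lp.stronglyMeasurable (fourier f)).measurable

theorem hat_mem (f : L2 X) : MemLp (hat f) 2 := Lp.memLp _

theorem S_eq (R : ℝ) (f : L2 X) (x : X) :
    S R f x = T (hat f) (ba X R) x := by
  rw [T_ch _ (ba_meas R), S]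
  refine integral_congr_ae (Eventually.of_forall fun ξ => ?_)
  simp only [ch]
  rw [Real.fourierChar_apply]
  push_cast
  rfl

theorem Smax_le (f : L2 X) (x : X) : Smax f x ≤ MS (hat f) x := by
  refine iSup₂_le fun R _ => ?_
  rw [S_eq]
  exact le_iSup (fun R => ‖T (hat f) (ba X R) x‖ₑ) R

theorem level_meas (f : L2 X) (ξ : X) : MeasurableSet (level f ξ) :=
  (measurableSet_le measurable_const measurable_norm).inter
    ((measurableSet_le measurable_norm measurable_const).inter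
      (measurableSet_le measurable_const (hat_meas f).norm))

/-- the constant bounds the constant of the library -/
theorem KF_le (p : ℝ) (A : Set X) : KF p A ≤ kap p A := by
  refine le_sInf fun K hK => sInf_le fun G hGm hG hE B hB hf => ?_
  have hint := ind_int hG hB hf
  have hmem := ind_mem hG hB
  set g : L2 X := 𝓕⁻ (hmem.toLp (B.indicator G)) with hg
  have h1 : (g : X → ℂ) =ᵐ[volume] T G B := inv_ae _ hint hmem
  have h2 : fourier g = hmem.toLp (B.indicator G) := by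
    rw [fourier, hg, FourierTransform.fourier_fourierInv_eq]
  have h3 : ∀ᵐ ξ, ξ ∉ A → hat g ξ = 0 := by
    have h4 : hat g =ᵐ[volume] B.indicator G := by
      rw [hat, h2]
      exact hmem.coeFn_toLp
    filter_upwards [h4] with ξ h5 h6
    rw [h5]
    by_cases h7 : ξ ∈ B
    · rw [Set.indicator_of_mem h7, hE ξ h6]
    · rw [Set.indicator_of_notMem h7]
  have h8 := hK g h3
  have h9 : ∫⁻ x, ‖g x‖ₑ ^ p = ∫⁻ x, ‖T G B x‖ₑ ^ p :=
    lintegral_congr_ae (by filter_upwards [h1] with x hx; rw [hx])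
  have h10 : ∫⁻ x, ‖g x‖ₑ ^ 2 = mass G B := by
    rw [← T_two hG hB hf]
    exact lintegral_congr_ae (by filter_upwards [h1] with x hx; rw [hx])
  rwa [h9, h10] at h8

/-- the constants agree for sets of finite measure -/
theorem kap_le (p : ℝ) {A : Set X} (hA : MeasurableSet A) (hAf : volume A < ⊤) :
    kap p A ≤ KF p A := by
  refine le_sInf fun K hK => sInf_le fun g hg => ?_
  have hmem : MemLp (A.indicator (hat g)) 2 := ind_mem (hat_mem g) hA
  have hint := ind_int (hat_mem g) hA hAf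
  have h1 : fourier g = hmem.toLp (A.indicator (hat g)) := by
    refine Lp.ext ?_
    refine EventuallyEq.trans ?_ hmem.coeFn_toLp.symm
    filter_upwards [hg] with ξ h2
    by_cases h3 : ξ ∈ A
    · rw [Set.indicator_of_mem h3]; rfl
    · rw [Set.indicator_of_notMem h3]; exact h2 h3
  have h2 : g = 𝓕⁻ (hmem.toLp (A.indicator (hat g))) := by
    rw [← h1, fourier, FourierTransform.fourierInv_fourier_eq]
  have h3 : (g : X → ℂ) =ᵐ[volume] T (hat g) A := by
    conv_lhs => rw [h2]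
    exact inv_ae _ hint hmem
  have h4 := hK (A.indicator (hat g)) ((hat_meas g).indicator hA) hmem
    (fun ξ hξ => Set.indicator_of_notMem hξ _) A hA hAf
  have h5 : T (A.indicator (hat g)) A = T (hat g) A := by
    unfold T
    rw [Set.indicator_indicator, Set.inter_self]
  have h6 : mass (A.indicator (hat g)) A = mass (hat g) A := by
    rw [← ind_lint _ hA, ← ind_lint _ hA, Set.indicator_indicator, Set.inter_self]
  rw [h5, h6, ← T_two (hat_mem g) hA hAf] at h4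
  have h7 : ∫⁻ x, ‖g x‖ₑ ^ p = ∫⁻ x, ‖T (hat g) A x‖ₑ ^ p :=
    lintegral_congr_ae (by filter_upwards [h3] with x hx; rw [hx])
  have h8 : ∫⁻ x, ‖g x‖ₑ ^ 2 = ∫⁻ x, ‖T (hat g) A x‖ₑ ^ 2 :=
    lintegral_congr_ae (by filter_upwards [h3] with x hx; rw [hx])
  rw [h7, h8]
  exact h4

theorem level_fin (hp : 2 < p) (f : L2 X) (ξ : X) : kap p (level f ξ) ≠ ⊤ := by
  have h1 : level f ξ ⊆ Metric.closedBall (0 : X) (2 * ‖ξ‖) := fun η h => by
    rw [mem_closedBall_zero_iff]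
    exact h.2.1
  have h2 : volume (level f ξ) < ⊤ := (measure_mono h1).trans_lt measure_closedBall_lt_top
  exact (((kap_le p (level_meas f ξ) h2).trans (KF_vol hp _ (level_meas f ξ))).trans_lt
    (ENNReal.rpow_lt_top_of_nonneg (by linarith) h2.ne)).ne

theorem log_kap_half (p : ℝ) (f : L2 X) (ξ : X) :
    1 / 2 ≤ Real.log (2 + (kap p (level f ξ)).toReal) := by
  have h1 : (2 : ℝ) ≤ 2 + (kap p (level f ξ)).toReal := by
    have : 0 ≤ (kap p (level f ξ)).toReal := ENNReal.toReal_nonneg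
    linarith
  have h2 := Real.log_le_log (by norm_num) h1
  have h3 := Real.log_two_gt_d9
  linarith

omit [InnerProductSpace ℝ X] [FiniteDimensional ℝ X] [MeasurableSpace X] [BorelSpace X] in
theorem log_norm_half (ξ : X) : 1 / 2 ≤ Real.log (2 + ‖ξ‖) := by
  have h1 : (2 : ℝ) ≤ 2 + ‖ξ‖ := by
    have := norm_nonneg ξ
    linarith
  have h2 := Real.log_le_log (by norm_num) h1
  have h3 := Real.log_two_gt_d9
  linarith

theorem Ls_le (hp : 2 < p) (f : L2 X) {k : ℕ} {ξ : X} (h : ξ ∈ sh X k) :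
    Q.Ls p (hat f) k ξ ≤ Real.log (2 + (kap p (level f ξ)).toReal) := by
  have hsub : lev (hat f) k ‖hat f ξ‖ ⊆ level f ξ := by
    rintro η ⟨h1, h2⟩
    have a1 := h.1
    have a2 := h.2
    have b1 := h1.1
    have b2 := h1.2
    rw [mem_closedBall_zero_iff] at a1 a2 b1 b2
    rw [not_le] at a2 b2
    have e : (2 : ℝ) ^ (k + 1) = 2 * 2 ^ k := by rw [pow_succ]; ring
    rw [e] at a1 b1
    exact ⟨by linarith, by linarith, h2⟩
  refine Real.log_le_log ?_ ?_
  · have : 0 ≤ (Q.al p (hat f) k ‖hat f ξ‖).toReal := ENNReal.toReal_nonneg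
    linarith
  · have := ENNReal.toReal_mono (level_fin hp f ξ) ((KF_mono p hsub).trans (KF_le p _))
    exact add_le_add le_rfl this

theorem Mn_le (hp : 2 < p) {ε : ℝ} (hε : 0 < ε) (f : L2 X) {k : ℕ} {ξ : X}
    (h : ξ ∈ sh X k) : Q.Mn p (2 + ε) (hat f) k ξ ≤ weight p ε f ξ := by
  have h1 := Q.Ls_half p (hat f) k ξ
  exact min_le_min le_rfl (Real.rpow_le_rpow (by linarith) (Ls_le hp f h) (by linarith))

theorem PT_le (hp : 2 < p) {ε : ℝ} (hε : 0 < ε) (f : L2 X) :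
    Q.PT p (2 + ε) (hat f) ≤ Phi p ε f := by
  calc Q.PT p (2 + ε) (hat f)
      ≤ ∑' k, ∫⁻ ξ in sh X k, ENNReal.ofReal (weight p ε f ξ) * ‖hat f ξ‖ₑ ^ 2 := by
        refine ENNReal.tsum_le_tsum fun k => setLIntegral_mono' (sh_meas k) fun ξ h => ?_
        exact mul_le_mul_left (ENNReal.ofReal_le_ofReal (Mn_le hp hε f h)) _
    _ = ∫⁻ ξ in ⋃ k, sh X k, ENNReal.ofReal (weight p ε f ξ) * ‖hat f ξ‖ₑ ^ 2 :=
        (lintegral_iUnion (fun k => sh_meas k) sh_disj _).symm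
    _ ≤ Phi p ε f := setLIntegral_le_lintegral _ _

theorem mass_le {ε : ℝ} (hε : 0 < ε) (f : L2 X) :
    ∫⁻ ξ, ‖hat f ξ‖ₑ ^ 2 ≤ ENNReal.ofReal (2 ^ (2 + ε)) * Phi p ε f := by
  unfold Phi
  rw [← lintegral_const_mul' _ _ ENNReal.ofReal_ne_top]
  refine lintegral_mono fun ξ => ?_
  rw [← mul_assoc]
  refine le_mul_of_one_le_left zero_le ?_
  rw [← ENNReal.ofReal_mul (by positivity), ENNReal.one_le_ofReal]
  have h1 : (1 / 2 : ℝ) ^ (2 + ε) ≤ weight p ε f ξ := by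
    refine le_min ?_ ?_
    · calc (1 / 2 : ℝ) ^ (2 + ε) ≤ (1 / 2 : ℝ) ^ (2 : ℝ) :=
            Real.rpow_le_rpow_of_exponent_ge (by norm_num) (by norm_num) (by linarith)
        _ = (1 / 2) ^ 2 := Real.rpow_ofNat _ _
        _ ≤ Real.log (2 + ‖ξ‖) ^ 2 := pow_le_pow_left₀ (by norm_num) (log_norm_half ξ) 2
    · exact Real.rpow_le_rpow (by norm_num) (log_kap_half p f ξ) (by linarith)
  have h2 : (2 : ℝ) ^ (2 + ε) * (1 / 2 : ℝ) ^ (2 + ε) = 1 := by
    rw [← Real.mul_rpow (by norm_num) (by norm_num)]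
    norm_num
  rw [← h2]
  exact mul_le_mul_of_nonneg_left h1 (by positivity)

end aux

/-- The result. -/
theorem result (X : Type*) [NormedAddCommGroup X] [InnerProductSpace ℝ X] [FiniteDimensional ℝ X]
    [MeasurableSpace X] [BorelSpace X] [Nontrivial X] (p ε : ℝ) (hp : 2 < p) (hε : 0 < ε) :
    ∃ C : ℝ≥0∞, C ≠ ⊤ ∧ ∀ f : L2 X,
      (∀ j : ℕ, ∃ U W : X → ℝ≥0∞, Measurable U ∧ Measurable W ∧
        (∀ x, Smax f x ≤ U x + W x) ∧
        ∫⁻ x, U x ^ 2 ≤ C * (1 + j) ^ 2 * Phi p ε f ∧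
        ∫⁻ x, W x ^ p ≤ C * 16 ^ (-((p / 2 - 1) * j)) * Phi p ε f ^ (p / 2)) ∧
      (Phi p ε f ≠ ⊤ → ∀ᵐ x, Tendsto (fun R : ℝ => S R f x) atTop (𝓝 (f x))) := by
  obtain ⟨C, hC, hC2⟩ := Run7.h976.SP.Q.w_glob (V := X) hp hε
  have hp2 : 0 ≤ p / 2 := by linarith
  set K : ℝ≥0∞ := ENNReal.ofReal (2 ^ (2 + ε)) + 1 with hK
  have hKt : K ≠ ⊤ := ENNReal.add_ne_top.2 ⟨ENNReal.ofReal_ne_top, ENNReal.one_ne_top⟩
  refine ⟨C * K + C * K ^ (p / 2), ENNReal.add_ne_top.2 ⟨ENNReal.mul_ne_top hC hKt,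
    ENNReal.mul_ne_top hC (ENNReal.rpow_ne_top_of_nonneg hp2 hKt)⟩, fun f => ⟨fun j => ?_, ?_⟩⟩
  · obtain ⟨U, W, hU, hW, hUW, h1, h2⟩ :=
      hC2 (hat f) (hat_meas f) (hat_mem f) f (Eventually.of_forall fun _ => rfl) j
    have h3 : (∫⁻ ξ, ‖hat f ξ‖ₑ ^ 2) + Run7.h976.SP.Q.PT p (2 + ε) (hat f) ≤
        K * Phi p ε f := by
      rw [hK, add_mul, one_mul]
      exact add_le_add (mass_le hε f) (PT_le hp hε f)
    refine ⟨U, W, hU, hW, fun x => (Smax_le f x).trans (hUW x), ?_, ?_⟩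
    · refine (h1.trans (mul_le_mul_right h3 _)).trans ?_
      calc C * (1 + j) ^ 2 * (K * Phi p ε f) = (C * K) * (1 + j) ^ 2 * Phi p ε f := by ring
        _ ≤ (C * K + C * K ^ (p / 2)) * (1 + j) ^ 2 * Phi p ε f :=
          mul_le_mul_left (mul_le_mul_left le_self_add _) _
    · refine (h2.trans (mul_le_mul_right (ENNReal.rpow_le_rpow h3 hp2) _)).trans ?_
      rw [ENNReal.mul_rpow_of_nonneg _ _ hp2]
      set q : ℝ≥0∞ := (16 : ℝ≥0∞) ^ (-((p / 2 - 1) * j)) with hq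
      calc C * q * (K ^ (p / 2) * Phi p ε f ^ (p / 2))
          = (C * K ^ (p / 2)) * q * Phi p ε f ^ (p / 2) := by ring
        _ ≤ (C * K + C * K ^ (p / 2)) * q * Phi p ε f ^ (p / 2) :=
          mul_le_mul_left (mul_le_mul_left le_add_self _) _
  · intro hf
    have h1 := Run7.h976.SP.Q.w_conv hp (hat_meas f) (hat_mem f) f
      (Eventually.of_forall fun _ => rfl) hε (ne_top_of_le_ne_top hf (PT_le hp hε f))
    filter_upwards [h1] with x hx
    exact hx.congr fun R => (S_eq R f x).symm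

end Pool.Agent.Results.MP_ee701d_an.AdditiveEnergy
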