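import Mathlib
import Pool.Agent.Run7.h726.Fl.J

/-!
# Ball partial sums of dispersive flows converge outside a small set of times

Let `f ∈ L²(ℝⁿ)` or, more generally, `f ∈ H^{-s}(ℝⁿ)` with `s ≥ 0`, let `G` be its Fourier
transform, and let `f_t = exp (i t |D|^a) f`, with Fourier transform `exp (i t |ξ|^a) G(ξ)`,
`a ≥ 1`. Outside a set of times `t` of Hausdorff dimension at most `(1 + 2 s) / a`, the maximal
function `sup_R |S_R f_t|` is square integrable on every ball, and `S_R f_t` converges, as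
`R → ∞` through all real `R`, almost everywhere and in `L²` on every ball, to one function. For
the Schroedinger group and `f ∈ L²` the bound for the dimension is `1 / 2`.
-/

set_option autoImplicit false

open MeasureTheory Metric Filter Topology
open scoped ENNReal RealInnerProductSpace

namespace Pool.Agent.Results.MP_ee701d_an.ExceptionalTimes

/-- Euclidean space -/
abbrev E (n : ℕ) := EuclideanSpace ℝ (Fin n)

/-- the ball partial sum `S_R f_t(x)`, where `f_t` has the Fourier transform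
`exp (i t |ξ|^a) G(ξ)` -/
noncomputable def S {n : ℕ} (a t : ℝ) (G : E n → ℂ) (R : ℝ) (x : E n) : ℂ :=
  ∫ ξ in closedBall (0 : E n) R, Complex.exp (2 * Real.pi * Complex.I * ((⟪x, ξ⟫ : ℝ) : ℂ)) *
    (Complex.exp (((t * ‖ξ‖ ^ a : ℝ) : ℂ) * Complex.I) * G ξ)

/-- the square of the norm of `f` in the Sobolev space `H^{-s}` -/
noncomputable def sob {n : ℕ} (s : ℝ) (G : E n → ℂ) : ℝ≥0∞ :=
  ∫⁻ ξ, ‖G ξ‖ₑ ^ 2 * ENNReal.ofReal ((1 + ‖ξ‖) ^ (-(2 * s)))

/-- the times `t` at which `sup_R |S_R f_t|` is square integrable on every ball and `S_R f_t`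
converges as `R → ∞`, almost everywhere and in `L²` on every ball, to one function `g` -/
def good {n : ℕ} (a : ℝ) (G : E n → ℂ) : Set ℝ :=
  {t : ℝ | (∀ ρ : ℝ, ∫⁻ x in closedBall (0 : E n) ρ, ⨆ R : ℝ, ‖S a t G R x‖ₑ ^ 2 < ⊤) ∧
    ∃ g : E n → ℂ, (∀ᵐ x : E n, Tendsto (fun R : ℝ => S a t G R x) atTop (𝓝 (g x))) ∧
      ∀ ρ : ℝ, Tendsto (fun R : ℝ => ∫⁻ x in closedBall (0 : E n) ρ, ‖S a t G R x - g x‖ₑ ^ 2)
        atTop (𝓝 0)}

theorem result {n : ℕ} (hn : 1 ≤ n) {s a : ℝ} (hs : 0 ≤ s) (ha : 1 ≤ a) (G : E n → ℂ)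
    (hG : AEStronglyMeasurable G volume) (hfin : sob s G < ⊤) :
    dimH (good a G)ᶜ ≤ ENNReal.ofReal ((1 + 2 * s) / a) := by
  obtain ⟨m, rfl⟩ : ∃ m, n = m + 1 := ⟨n - 1, by omega⟩
  exact Run7.h726.Fl.badF_dim hs ha hG hfin

end Pool.Agent.Results.MP_ee701d_an.ExceptionalTimes
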