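import Mathlib
import Pool.Agent.Run7.h726.Fl.K

/-!
# The maximal ball partial sum operator along dispersive flows, for fractal measures in time

Let `μ` be a measure on the line with `μ [s, s + r] ≤ C₀ r^α` for `0 < r ≤ 1`, let `a ≥ 1`,
`s ≥ 0` and `1 + 2 s < a α`. Then
`∫_{|t| ≤ T} ∫_B sup_R |S_R exp (i t |D|^a) f|² dx dμ(t) ≤ C ‖f‖²` for every ball `B` of
radius `ρ`, with the norm of `f` in `H^{-s}(ℝⁿ)`, and with `C` independent of `f` and of the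
centre of `B`.
-/

set_option autoImplicit false

open MeasureTheory Metric Filter Topology
open scoped ENNReal NNReal RealInnerProductSpace

namespace Pool.Agent.Results.MP_ee701d_an.FractalTimeMaximal

/-- Euclidean space -/
abbrev E (n : ℕ) := EuclideanSpace ℝ (Fin n)

/-- the ball partial sum `S_R f_t(x)`, where `f_t` has the Fourier transform
`exp (i t |ξ|^a) G(ξ)` -/
noncomputable def S {n : ℕ} (a t : ℝ) (G : E n → ℂ) (R : ℝ) (x : E n) : ℂ :=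
  ∫ ξ in closedBall (0 : E n) R, Complex.exp (2 * Real.pi * Complex.I * ((⟪x, ξ⟫ : ℝ) : ℂ)) *
    (Complex.exp (((t * ‖ξ‖ ^ a : ℝ) : ℂ) * Complex.I) * G ξ)

/-- the square of the norm of `f` in the Sobolev space `H^{-s}` -/
noncomputable def sob {n : ℕ} (s : ℝ) (G : E n → ℂ) : ℝ≥0∞ :=
  ∫⁻ ξ, ‖G ξ‖ₑ ^ 2 * ENNReal.ofReal ((1 + ‖ξ‖) ^ (-(2 * s)))

theorem result {n : ℕ} (hn : 1 ≤ n) {s a α T ρ : ℝ} (hs : 0 ≤ s) (ha : 1 ≤ a)
    (hα : 1 + 2 * s < a * α) (hT : 0 < T) (hρ : 0 < ρ) {C₀ : ℝ≥0} (μ : Measure ℝ)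
    (hμ : ∀ u r : ℝ, 0 < r → r ≤ 1 → μ (Set.Icc u (u + r)) ≤ C₀ * ENNReal.ofReal (r ^ α)) :
    ∃ C : ℝ≥0, ∀ G : E n → ℂ, AEStronglyMeasurable G volume → ∀ x₀ : E n,
      ∫⁻ t in Set.Icc (-T) T, ∫⁻ x in closedBall x₀ ρ, ⨆ R : ℝ, ‖S a t G R x‖ₑ ^ 2 ∂volume ∂μ ≤
        C * sob s G := by
  obtain ⟨m, rfl⟩ : ∃ m, n = m + 1 := ⟨n - 1, by omega⟩
  exact Run7.h726.Fl.frost_all hs ha hρ hT ENNReal.coe_ne_top hα hμ

end Pool.Agent.Results.MP_ee701d_an.FractalTimeMaximal
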