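import Mathlib
import Pool.Agent.Run7.h167.SR.C

/-!
# The maximal inequality over very sparse sets of radii, on one set of positive measure

Let `D` be a set of positive radii which meets every large octave and which is relatively
`ε`-dense in infinitely many octaves, for every `ε > 0`. Let `W` be a measurable set of positive
measure in `ℝⁿ`. Q1 in dimension `n` is equivalent to the inequality
`∫_W sup_{R ∈ D} |S_R f|² ≤ C ‖f‖₂²` (Schwartz functions `f`), and even to the qualitative property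
`∫_W sup_{R ∈ D} |S_R f|² < ∞` for every `f ∈ L²`. The octaves in which `D` is dense may be
arbitrarily rare, and `D` may have one point in each of the others.
-/

set_option autoImplicit false

open MeasureTheory Metric Filter Topology
open scoped ENNReal NNReal RealInnerProductSpace SchwartzMap FourierTransform

namespace Pool.Agent.Results.MP_ee701d_an.SublacunaryRadii

/-- Euclidean space -/
abbrev E (n : ℕ) := EuclideanSpace ℝ (Fin n)

/-- the ball partial sum `S_R f(x)` of the function `f` with the Fourier transform `G` -/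
noncomputable def S {n : ℕ} (G : E n → ℂ) (R : ℝ) (x : E n) : ℂ :=
  ∫ ξ in closedBall (0 : E n) R, Complex.exp (2 * Real.pi * Complex.I * ((⟪x, ξ⟫ : ℝ) : ℂ)) * G ξ

/-- Q1 in dimension `n` -/
def Q1 (n : ℕ) : Prop := ∃ C : ℝ≥0, ∀ f : 𝓢(E n, ℂ),
  ∫⁻ x, (⨆ R : Set.Ioi (0 : ℝ), ‖S (𝓕 f : 𝓢(E n, ℂ)) R x‖ₑ) ^ 2 ≤ C * ∫⁻ x, ‖f x‖ₑ ^ 2

/-- the inequality of Q1 with the radii in `D` and the points in `W` only -/
def Sparse (n : ℕ) (D : Set ℝ) (W : Set (E n)) : Prop := ∃ C : ℝ≥0, ∀ f : 𝓢(E n, ℂ),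
  ∫⁻ x in W, (⨆ R : D, ‖S (𝓕 f : 𝓢(E n, ℂ)) R x‖ₑ) ^ 2 ≤ C * ∫⁻ x, ‖f x‖ₑ ^ 2

/-- the maximal function of every `f ∈ L²`, with the radii in `D`, is square integrable on `W` -/
def Qual (n : ℕ) (D : Set ℝ) (W : Set (E n)) : Prop := ∀ G : E n → ℂ, MemLp G 2 →
  ∫⁻ x in W, (⨆ R : D, ‖S G R x‖ₑ) ^ 2 < ⊤

/-- `D` meets every large octave, and for every `ε > 0` it is relatively `ε`-dense in octaves
`[M, 2 M]` with arbitrarily large `M` -/
structure Rich (D : Set ℝ) : Prop where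
  pos : ∀ r ∈ D, 0 < r
  octave : ∃ a : ℝ, ∀ R, a ≤ R → ∃ r ∈ D, R ≤ r ∧ r ≤ 2 * R
  dense : ∀ ε : ℝ, 0 < ε → ∀ M₀ : ℝ, ∃ M, M₀ ≤ M ∧ ∀ R, M ≤ R → R ≤ 2 * M →
    ∃ r ∈ D, |r - R| ≤ ε * M

open Run7.h167.SR in
lemma sup_sq {n : ℕ} (D : Set ℝ) (G : E n → ℂ) (x : E n) :
    (⨆ R : D, ‖S G R x‖ₑ) ^ 2 = Mr D G x := ENNReal.iSup_pow_of_ne_zero two_ne_zero _

open Run7.h167.SR in
theorem equiv {n : ℕ} (hn : 1 ≤ n) {D : Set ℝ} (hD : Rich D) {W : Set (E n)}
    (hW : MeasurableSet W) (hW0 : 0 < volume W) :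
    (Q1 n ↔ Sparse n D W) ∧ (Q1 n ↔ Qual n D W) := by
  obtain ⟨m, rfl⟩ : ∃ m, n = m + 1 := ⟨n - 1, by omega⟩
  have h12 : Q1 (m + 1) → Sparse (m + 1) D W := by
    rintro ⟨C, hC⟩
    refine ⟨C, fun f => le_trans ?_ (hC f)⟩
    refine (setLIntegral_le_lintegral _ _).trans (lintegral_mono fun x => ?_)
    refine pow_le_pow_left₀ zero_le (iSup_le fun R : D => ?_) 2
    exact le_iSup (fun R : Set.Ioi (0 : ℝ) => ‖S (𝓕 f : 𝓢(E (m + 1), ℂ)) R x‖ₑ)
      ⟨(R : ℝ), hD.pos R R.2⟩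
  have h23 : Sparse (m + 1) D W → Qual (m + 1) D W := by
    rintro ⟨C, hC⟩ G hG
    simp_rw [sup_sq] at hC ⊢
    refine (schwartz D W ENNReal.coe_ne_top hC hG).trans_lt ?_
    exact ENNReal.mul_lt_top ENNReal.coe_lt_top (nn_fin hG)
  have h31 : Qual (m + 1) D W → Q1 (m + 1) := by
    intro h
    unfold Qual at h
    simp_rw [sup_sq] at h
    obtain ⟨A, hA, h1⟩ := baire D W h
    obtain ⟨A', hA', h2⟩ := to_ball D W hW hW0 hA h1
    obtain ⟨a, ha⟩ := hD.octave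
    have hr : Radii D (max a 1) :=
      ⟨fun r hr => (hD.pos r hr).le, by positivity, fun R hR => ha R ((le_max_left _ _).trans hR),
        hD.dense⟩
    have hK : Kc m A' (max a 1) 1 ≠ ⊤ := by
      unfold Kc
      finiteness
    refine ⟨(Kc m A' (max a 1) 1).toNNReal, fun f => ?_⟩
    rw [ENNReal.coe_toNNReal hK]
    have h3 := main_all hr one_pos h2 ((𝓕 f : 𝓢(E (m + 1), ℂ)).memLp 2)
    rw [← plancherel] at h3
    refine le_trans (lintegral_mono fun x => ?_) h3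
    rw [sup_sq]
    exact iSup_le fun R => le_iSup (fun R : ℝ => ‖_‖ₑ ^ 2) (R : ℝ)
  exact ⟨⟨h12, fun h => h31 (h23 h)⟩, ⟨fun h => h23 (h12 h), h31⟩⟩

/-- a sequence with ratios tending to `1` -/
lemma rich_seq {r : ℕ → ℝ} (hr : ∀ k, 0 < r k) (h1 : Tendsto r atTop atTop)
    (h2 : Tendsto (fun k => r (k + 1) / r k) atTop (𝓝 1)) : Rich (Set.range r) := by
  have key : ∀ δ : ℝ, 0 < δ → ∃ a : ℝ, 0 < a ∧ ∀ R, a ≤ R → ∃ k, R ≤ r k ∧ r k ≤ (1 + δ) * R := by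
    intro δ hδ
    have h3 : ∀ᶠ k in atTop, r (k + 1) / r k < 1 + δ := h2.eventually_lt_const (by linarith)
    obtain ⟨K, hK⟩ := eventually_atTop.1 h3
    refine ⟨r K, hr K, fun R hR => ?_⟩
    have hex : ∃ k, K ≤ k ∧ R ≤ r k := by
      obtain ⟨k, hk⟩ := (h1.eventually_ge_atTop R).and (eventually_ge_atTop K) |>.exists
      exact ⟨k, hk.2, hk.1⟩
    classical
    have hm := Nat.find_spec hex
    have hmin := fun k (hk : k < Nat.find hex) => Nat.find_min hex hk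
    set k := Nat.find hex with hkdef
    refine ⟨k, hm.2, ?_⟩
    have hR0 : 0 < R := (hr K).trans_le hR
    rcases Nat.eq_or_lt_of_le hm.1 with h | h
    · rw [← h]
      nlinarith
    · obtain ⟨l, hl⟩ : ∃ l, k = l + 1 := ⟨k - 1, by omega⟩
      have h4 : ¬ (K ≤ l ∧ R ≤ r l) := hmin l (by omega)
      have h5 : r l < R := by
        by_contra hcon
        exact h4 ⟨by omega, not_lt.1 hcon⟩
      have h6 := (div_lt_iff₀ (hr l)).1 (hK l (by omega))
      rw [hl]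
      have h7 : (1 + δ) * r l ≤ (1 + δ) * R := mul_le_mul_of_nonneg_left h5.le (by linarith)
      linarith
  refine ⟨?_, ?_, ?_⟩
  · rintro _ ⟨k, rfl⟩
    exact hr k
  · obtain ⟨a, -, ha⟩ := key 1 one_pos
    refine ⟨a, fun R hR => ?_⟩
    obtain ⟨k, hk1, hk2⟩ := ha R hR
    exact ⟨r k, ⟨k, rfl⟩, hk1, by linarith⟩
  · intro ε hε M₀
    obtain ⟨a, ha0, ha⟩ := key (ε / 2) (by positivity)
    refine ⟨max M₀ a, le_max_left _ _, fun R hR hR2 => ?_⟩
    obtain ⟨k, hk1, hk2⟩ := ha R ((le_max_right _ _).trans hR)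
    refine ⟨r k, ⟨k, rfl⟩, ?_⟩
    rw [abs_of_nonneg (by linarith)]
    nlinarith [mul_le_mul_of_nonneg_left hR2 hε.le]

/-- the powers of `2`, and `j` more equidistant points in the octave of `2 ^ (e j)` -/
def Dyadic (e : ℕ → ℕ) : Set ℝ :=
  Set.range (fun k : ℕ => (2 : ℝ) ^ k) ∪ {r | ∃ j i : ℕ, i ≤ j ∧ r = 2 ^ e j * (1 + i / (j + 1))}

lemma rich_dyadic {e : ℕ → ℕ} (he : Tendsto e atTop atTop) : Rich (Dyadic e) := by
  refine ⟨?_, ⟨1, fun R hR => ?_⟩, fun ε hε M₀ => ?_⟩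
  · rintro r (⟨k, rfl⟩ | ⟨j, i, -, rfl⟩)
    · positivity
    · positivity
  · obtain ⟨k, hk1, hk2⟩ := exists_nat_pow_near hR (one_lt_two : (1 : ℝ) < 2)
    refine ⟨2 ^ (k + 1), Or.inl ⟨k + 1, rfl⟩, hk2.le, ?_⟩
    rw [pow_succ]
    linarith
  · have h1 : ∀ᶠ j : ℕ in atTop, M₀ ≤ (2 : ℝ) ^ e j :=
      ((tendsto_pow_atTop_atTop_of_one_lt (one_lt_two : (1 : ℝ) < 2)).comp he).eventually_ge_atTop M₀
    have h2 : ∀ᶠ j : ℕ in atTop, 1 / ((j : ℝ) + 1) < ε :=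
      tendsto_one_div_add_atTop_nhds_zero_nat.eventually_lt_const hε
    obtain ⟨j, hj1, hj2⟩ := (h1.and h2).exists
    refine ⟨2 ^ e j, hj1, fun R hR hR2 => ?_⟩
    set M : ℝ := 2 ^ e j with hM
    have hM0 : 0 < M := by positivity
    have hj0 : (0 : ℝ) < (j : ℝ) + 1 := by positivity
    set t : ℝ := (R / M - 1) * (j + 1) with ht
    have ht0 : 0 ≤ t := mul_nonneg (by rw [sub_nonneg, one_le_div hM0]; exact hR) hj0.le
    have htj : t ≤ j + 1 := by
      have : R / M ≤ 2 := (div_le_iff₀ hM0).2 hR2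
      nlinarith
    have hRt : R = M * (1 + t / (j + 1)) := by
      rw [ht]
      field_simp
      ring
    rcases Nat.lt_or_ge ⌊t⌋₊ (j + 1) with hi | hi
    · refine ⟨M * (1 + ⌊t⌋₊ / (j + 1)), Or.inr ⟨j, ⌊t⌋₊, by omega, rfl⟩, ?_⟩
      have h3 := Nat.floor_le ht0
      have h4 := Nat.lt_floor_add_one t
      have h5 : M * (1 + ⌊t⌋₊ / (j + 1)) - R = M * ((⌊t⌋₊ - t) / (j + 1)) := by
        rw [hRt]
        ring
      rw [h5, abs_mul, abs_of_pos hM0, abs_div, abs_of_pos hj0, mul_comm]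
      refine mul_le_mul_of_nonneg_right ?_ hM0.le
      refine le_trans ?_ hj2.le
      refine (div_le_div_iff_of_pos_right hj0).2 ?_
      rw [abs_le]
      constructor <;> linarith
    · have h3 : ((j + 1 : ℕ) : ℝ) ≤ t := (Nat.le_floor_iff ht0).1 hi
      have h4 : t = j + 1 := le_antisymm htj (by push_cast at h3; exact h3)
      have h5 : R = 2 * M := by
        rw [hRt, h4, div_self hj0.ne']
        ring
      refine ⟨2 ^ (e j + 1), Or.inl ⟨e j + 1, rfl⟩, ?_⟩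
      rw [h5, pow_succ, ← hM, mul_comm, sub_self, abs_zero]
      positivity

/-- **Main theorem** -/
theorem result :
    (∀ (n : ℕ), 1 ≤ n → ∀ D : Set ℝ, Rich D → ∀ W : Set (E n), MeasurableSet W → 0 < volume W →
      (Q1 n ↔ Sparse n D W) ∧ (Q1 n ↔ Qual n D W)) ∧
    (∀ r : ℕ → ℝ, (∀ k, 0 < r k) → Tendsto r atTop atTop →
      Tendsto (fun k => r (k + 1) / r k) atTop (𝓝 1) → Rich (Set.range r)) ∧
    ∀ e : ℕ → ℕ, Tendsto e atTop atTop → Rich (Dyadic e) :=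
  ⟨fun _ hn _ hD _ hW hW0 => equiv hn hD hW hW0, fun _ => rich_seq, fun _ => rich_dyadic⟩

end Pool.Agent.Results.MP_ee701d_an.SublacunaryRadii
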